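import Mathlib
import Pool.Agent.V1195.MeanAlu

/-!
# MP_3feef6_an: fixed points of the mean-Aluthge transform

For every bounded operator `T` on a complex Hilbert space, with canonical polar decomposition
`T = V |T|`, Aluthge transform `S = |T|^(1/2) V |T|^(1/2)` and canonical polar decomposition
`S = W |S|`, the equation `(S + |S| W) / 2 = T` holds if and only if `T` is quasi-normal.
-/

set_option autoImplicit false
open Pool.Agent.V1195.MeanAlu

namespace Pool.Agent.Results.MP_3feef6_an.FixedPointsQuasinormal

noncomputable section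

variable {H : Type*} [NormedAddCommGroup H] [InnerProductSpace ℂ H] [CompleteSpace H]

/-- `T = V |T|` is the canonical polar decomposition: `V` is a partial isometry
(`V V* V = V`), `ker V = ker T` and `T = V |T|`, where `|T| = (T* T)^(1/2)`. -/
def IsPolar (T V : H →L[ℂ] H) : Prop :=
  V * star V * V = V ∧ (∀ x, V x = 0 ↔ T x = 0) ∧ T = V * CFC.abs T

/-- The Aluthge transform `|T|^(1/2) V |T|^(1/2)` (for the polar factor `V` of `T`). -/
def aluthge (T V : H →L[ℂ] H) : H →L[ℂ] H :=
  CFC.sqrt (CFC.abs T) * V * CFC.sqrt (CFC.abs T)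

/-- The mean transform `(S + |S| W) / 2` (for the polar factor `W` of `S`). -/
def meanTransform (S W : H →L[ℂ] H) : H →L[ℂ] H :=
  (1 / 2 : ℂ) • (S + CFC.abs S * W)

lemma ker_cancel {T V : H →L[ℂ] H} (h : IsPolar T V) (Z : H →L[ℂ] H)
    (hZ : CFC.abs T * Z = 0) : V * Z = 0 := by
  ext x
  have h1 : CFC.abs T (Z x) = 0 := by
    have := congrArg (fun S : H →L[ℂ] H => S x) hZ
    simpa using this
  have h2 : T (Z x) = 0 := by
    rw [h.2.2]; simp [h1]
  simpa using (h.2.1 (Z x)).2 h2

lemma E_abs {T V : H →L[ℂ] H} (h : IsPolar T V) : star V * V * CFC.abs T = CFC.abs T := by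
  have hs : IsSelfAdjoint (CFC.abs T) := (CFC.abs_nonneg T).isSelfAdjoint
  have h1 : CFC.abs T * (1 - star V * V) = 0 := by
    ext x
    have hV : V ((1 - star V * V) x) = 0 := by
      have h2 : V * (1 - star V * V) = 0 := by
        rw [mul_sub, mul_one, ← mul_assoc, h.1, sub_self]
      have := congrArg (fun S : H →L[ℂ] H => S x) h2
      simpa using this
    have hT := (h.2.1 _).1 hV
    set y := (1 - star V * V) x with hy
    have h3 : CFC.abs T (CFC.abs T y) = 0 := by
      have h4 : (CFC.abs T * CFC.abs T) y = 0 := by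
        rw [CFC.abs_mul_abs]
        simp [hT]
      simpa using h4
    have h5 : ‖CFC.abs T y‖ ^ 2 = 0 := by
      have h6 : inner ℂ (CFC.abs T y) (CFC.abs T y) = inner ℂ y (CFC.abs T (CFC.abs T y)) := by
        have h7 : star (CFC.abs T) = CFC.abs T := hs.star_eq
        rw [ContinuousLinearMap.star_eq_adjoint] at h7
        conv_lhs => rw [← h7]
        rw [h7, ← ContinuousLinearMap.adjoint_inner_right, h7]
      have h8 := inner_self_eq_norm_sq_to_K (𝕜 := ℂ) (CFC.abs T y)
      rw [h6, h3, inner_zero_right] at h8
      have h10 : ((‖CFC.abs T y‖ ^ 2 : ℝ) : ℂ) = 0 := by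
        rw [h8]; push_cast; rfl
      exact Complex.ofReal_eq_zero.1 h10
    have h9 : CFC.abs T y = 0 := by
      have := pow_eq_zero_iff (two_ne_zero) |>.1 h5
      exact norm_eq_zero.1 this
    simpa [hy] using h9
  have h2 := congrArg star h1
  rw [star_mul, star_sub, star_one, star_mul, star_star, hs.star_eq, star_zero, sub_mul, one_mul,
    sub_eq_zero] at h2
  exact h2.symm

/-- Kernel inclusion gives `W W'* W' = W` for the corresponding partial isometries. -/
lemma ker_incl {V W : H →L[ℂ] H} (hW : W * star W * W = W)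
    (h : ∀ x, W x = 0 → V x = 0) : V * (star W * W) = V := by
  have h1 : V * (1 - star W * W) = 0 := by
    ext x
    have h2 : W ((1 - star W * W) x) = 0 := by
      have h3 : W * (1 - star W * W) = 0 := by
        rw [mul_sub, mul_one, ← mul_assoc, hW, sub_self]
      have := congrArg (fun S : H →L[ℂ] H => S x) h3
      simpa using this
    simpa using h _ h2
  rw [mul_sub, mul_one, sub_eq_zero] at h1
  exact h1.symm

lemma commute_abs_of_quasinormal {T V : H →L[ℂ] H} (h : IsPolar T V)
    (hq : T * (star T * T) = (star T * T) * T) : CFC.abs T * V = V * CFC.abs T := by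
  have hA : 0 ≤ CFC.abs T := CFC.abs_nonneg T
  have hsa : IsSelfAdjoint (CFC.abs T) := hA.isSelfAdjoint
  have hT : T = V * CFC.abs T := h.2.2
  have hq2 : CFC.abs T * T = T * CFC.abs T := by
    have h2 : Commute (star T * T) T := hq.symm
    rw [CFC.abs, CFC.sqrt_eq_cfc]
    exact h2.cfc_nnreal NNReal.sqrt
  rw [← sub_eq_zero]
  have hD : (CFC.abs T * V - V * CFC.abs T) * CFC.abs T = 0 := by
    rw [sub_mul, sub_eq_zero]
    calc CFC.abs T * V * CFC.abs T = CFC.abs T * (V * CFC.abs T) := by rw [mul_assoc]
      _ = CFC.abs T * T := by rw [← hT]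
      _ = T * CFC.abs T := hq2
      _ = V * CFC.abs T * CFC.abs T := by rw [← hT]
  have h3 := congrArg star hD
  rw [star_mul, hsa.star_eq, star_zero] at h3
  have h4 := congrArg star (ker_cancel h _ h3)
  rw [star_mul, star_star, star_zero] at h4
  have hAE : CFC.abs T * (star V * V) = CFC.abs T := by
    have h5 := congrArg star (E_abs h)
    rwa [star_mul, star_mul, star_star, hsa.star_eq] at h5
  have h6 : (CFC.abs T * V - V * CFC.abs T) * (star V * V) =
      CFC.abs T * V - V * CFC.abs T := by
    calc (CFC.abs T * V - V * CFC.abs T) * (star V * V)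
        = CFC.abs T * (V * star V * V) - V * (CFC.abs T * (star V * V)) := by noncomm_ring
      _ = CFC.abs T * V - V * CFC.abs T := by rw [h.1, hAE]
  rw [← h6, ← mul_assoc, h4, zero_mul]

/-- Uniqueness of the polar factor. -/
lemma polar_unique {T V W : H →L[ℂ] H} (hV : IsPolar T V) (hW : IsPolar T W) : V = W := by
  have hA : 0 ≤ CFC.abs T := CFC.abs_nonneg T
  have hsa : IsSelfAdjoint (CFC.abs T) := hA.isSelfAdjoint
  have h1 : (V - W) * CFC.abs T = 0 := by
    rw [sub_mul, ← hV.2.2, ← hW.2.2, sub_self]
  have h2 := congrArg star h1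
  rw [star_mul, hsa.star_eq, star_zero] at h2
  have h3 := congrArg star (ker_cancel hV _ h2)
  rw [star_mul, star_star, star_zero] at h3
  have h4 : (V - W) * (star V * V) = 0 := by rw [← mul_assoc, h3, zero_mul]
  have h5 : V * (star V * V) = V := by rw [← mul_assoc, hV.1]
  have h6 : W * (star V * V) = W :=
    ker_incl hV.1 (fun x hx => (hW.2.1 x).2 ((hV.2.1 x).1 hx))
  rw [sub_mul, h5, h6, sub_eq_zero] at h4
  exact h4

theorem fixed_commute {T V W : H →L[ℂ] H} (hV : IsPolar T V) (hW : IsPolar (aluthge T V) W)
    (hfix : aluthge T V + CFC.abs (aluthge T V) * W = T + T) :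
    V * CFC.abs T = CFC.abs T * V := by
  set P := CFC.abs T with hPdef
  set Z := CFC.sqrt P with hZdef
  set S := aluthge T V with hSdef
  set A := CFC.abs S with hAdef
  have hP0 : 0 ≤ P := CFC.abs_nonneg T
  have hZ0 : 0 ≤ Z := CFC.sqrt_nonneg P
  have hA0 : 0 ≤ A := CFC.abs_nonneg S
  have hZZ : Z * Z = P := CFC.sqrt_mul_sqrt_self P hP0
  have hS : S = Z * V * Z := rfl
  have hSW : S = W * A := hW.2.2
  have hTV : T = V * P := hV.2.2
  have hsP : star P = P := hP0.isSelfAdjoint.star_eq
  have hsZ : star Z = Z := hZ0.isSelfAdjoint.star_eq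
  have hsA : star A = A := hA0.isSelfAdjoint.star_eq
  -- `E Z = Z`
  have hEP : star V * V * P = P := E_abs hV
  have hEZ : star V * V * Z = Z := by
    have h1 : (star V * V * Z - Z) * star (star V * V * Z - Z) = 0 := by
      rw [star_sub, star_mul, hsZ, star_mul, star_star]
      have hPE : P * (star V * V) = P := by
        have h5 := congrArg star hEP
        rwa [star_mul, star_mul, star_star, hsP] at h5
      calc (star V * V * Z - Z) * (Z * (star V * V) - Z)
          = star V * V * (Z * Z) * (star V * V) - star V * V * (Z * Z)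
              - (Z * Z) * (star V * V) + Z * Z := by noncomm_ring
        _ = 0 := by rw [hZZ, hEP, hPE]; abel
    rw [CStarRing.mul_star_self_eq_zero_iff] at h1
    exact sub_eq_zero.1 h1
  -- equality of kernels
  have hker : ∀ x, V x = 0 ↔ W x = 0 := by
    intro x
    constructor
    · intro hx
      have h1 : T x = 0 := (hV.2.1 x).1 hx
      have hZx : Z x = 0 := by
        have hZE : Z * (star V * V) = Z := by
          have h5 := congrArg star hEZ
          rwa [star_mul, star_mul, star_star, hsZ] at h5
        have : Z x = (Z * (star V * V)) x := by rw [hZE]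
        rw [this]
        simp [hx]
      refine (hW.2.1 x).2 ?_
      show S x = 0
      rw [hS]
      simp [hZx]
    · intro hx
      have hSx : S x = 0 := (hW.2.1 x).1 hx
      have h1 : (T + T) x = 0 := by
        rw [← hfix]
        simp [hSx, hx]
      have h2 : T x = 0 := by
        have h3 : (2 : ℂ) • T x = 0 := by
          rw [two_smul]; simpa using h1
        exact (smul_eq_zero.1 h3).resolve_left two_ne_zero
      exact (hV.2.1 x).2 h2
  have hVW : V * (star W * W) = V := ker_incl hW.1 (fun x hx => (hker x).2 hx)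
  have hWV : W * (star V * V) = W := ker_incl hV.1 (fun x hx => (hker x).1 hx)
  have hEE : star W * W = star V * V := by
    have h1 : star V * V * (star W * W) = star V * V := by rw [mul_assoc, hVW]
    have h2 : star W * W * (star V * V) = star W * W := by rw [mul_assoc, hWV]
    have h3 := congrArg star h1
    rw [star_mul, star_mul, star_mul, star_star, star_star] at h3
    rw [← h2, h3]
  have hEA : star V * V * A = A := by
    rw [← hEE]; exact E_abs hW
  let D : Data (H →L[ℂ] H) :=
    { P := P, Z := Z, A := A, V := V, W := W, E := star V * V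
      hZ := hZ0
      hP := hZZ.symm
      hA := hA0
      hVE := rfl
      hWE := hEE
      hV := by rw [← mul_assoc, hV.1]
      hW := hWV
      hEZ := hEZ
      hEA := hEA
      hS := by rw [← hSW, hS]
      hfix := by rw [← hTV, ← hSW, hfix] }
  refine D.main ?_
  intro X hX
  show star V * V * X = 0
  rw [mul_assoc, ker_cancel hV X hX, mul_zero]

/-- The fixed points of the mean-Aluthge transform are exactly the quasi-normal operators. -/
theorem result (T V W : H →L[ℂ] H) (hV : IsPolar T V) (hW : IsPolar (aluthge T V) W) :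
    meanTransform (aluthge T V) W = T ↔ T * (star T * T) = (star T * T) * T := by
  have hA : 0 ≤ CFC.abs T := CFC.abs_nonneg T
  have hTV : T = V * CFC.abs T := hV.2.2
  have hiff : meanTransform (aluthge T V) W = T ↔
      aluthge T V + CFC.abs (aluthge T V) * W = T + T := by
    unfold meanTransform
    rw [← two_smul ℂ T]
    constructor
    · intro h
      conv_rhs => rw [← h]
      rw [smul_smul]; norm_num
    · intro h
      rw [h, smul_smul]; norm_num
  rw [hiff]
  constructor
  · intro hfix
    have hc := fixed_commute hV hW hfix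
    have hc2 : T * CFC.abs T = CFC.abs T * T := by
      calc T * CFC.abs T = V * CFC.abs T * CFC.abs T := by rw [← hTV]
        _ = CFC.abs T * V * CFC.abs T := by rw [hc]
        _ = CFC.abs T * (V * CFC.abs T) := by rw [mul_assoc]
        _ = CFC.abs T * T := by rw [← hTV]
    rw [← CFC.abs_mul_abs, ← mul_assoc, hc2, mul_assoc, hc2, mul_assoc]
  · intro hq
    have hc : CFC.abs T * V = V * CFC.abs T := commute_abs_of_quasinormal hV hq
    have hc2 : CFC.sqrt (CFC.abs T) * V = V * CFC.sqrt (CFC.abs T) := by
      have h2 : Commute (CFC.abs T) V := hc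
      rw [CFC.sqrt_eq_cfc]
      exact h2.cfc_nnreal NNReal.sqrt
    have hST : aluthge T V = T := by
      unfold aluthge
      rw [hc2, mul_assoc, CFC.sqrt_mul_sqrt_self _ hA, ← hTV]
    rw [hST] at hW ⊢
    have hVW := polar_unique hV hW
    rw [← hVW, hc, ← hTV]

end

end Pool.Agent.Results.MP_3feef6_an.FixedPointsQuasinormal
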